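import Pool.Agent.helper91.RB.Spec5

/-!
# Project rb (MP_24e2e7_nt), row DVE: divisors and group ring elements
-/

set_option autoImplicit false
set_option linter.unusedSectionVars false

namespace Pool.Agent.RB

open NumberField IsDedekindDomain Module
open scoped nonZeroDivisors Real Classical IsMulCommutative

section DVEsec

variable {F K H : Type} [Field F] [NumberField F] [Field K] [NumberField K] [Field H] [NumberField H]
  [Algebra F K] [Algebra K H] [Algebra F H] [IsScalarTower F K H] [IsAbelianGalois F K] [IsAbelianGalois F H]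

/-- the restriction homomorphism -/
noncomputable abbrev DVE_res (F K H : Type) [Field F] [NumberField F] [Field K] [NumberField K] [Field H] [NumberField H]
    [Algebra F K] [Algebra K H] [Algebra F H] [IsScalarTower F K H] [IsAbelianGalois F K] [IsAbelianGalois F H] :
    (H ≃ₐ[F] H) →* (K ≃ₐ[F] K) := AlgEquiv.restrictNormalHom K

/-- the action of `K ≃ₐ[F] K` -/
noncomputable abbrev DVE_A (ρ : K ≃ₐ[F] K) (P : HOS K) : HOS K := act (ρ : K ≃+* K) P

theorem DVE_A_one (hORD : ORD_stmt) (P : HOS K) : DVE_A (1 : K ≃ₐ[F] K) P = P :=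
  (hORD K).2.2.2.2.2.2.1 P

theorem DVE_A_mul (hORD : ORD_stmt) (ρ ρ' : K ≃ₐ[F] K) (P : HOS K) :
    DVE_A (ρ * ρ') P = DVE_A ρ (DVE_A ρ' P) :=
  (hORD K).2.2.2.2.2.2.2.1 (ρ' : K ≃+* K) (ρ : K ≃+* K) P

theorem DVE_A_under (hORD : ORD_stmt) (ρ : K ≃ₐ[F] K) (P : HOS K) :
    (DVE_A ρ P).under (𝓞 F) = P.under (𝓞 F) :=
  (hORD K).2.2.2.2.2.2.2.2 F (ρ : K ≃+* K) P (fun x => ρ.commutes x)

theorem DVE_coeff (w : HOS H) (D : Dv K) (τ : H ≃ₐ[F] H) : (bD F w D).coeff τ =
    D (act ((AlgEquiv.restrictNormalHom K τ : K ≃ₐ[F] K) : K ≃+* K) (w.under (𝓞 K))) := by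
  unfold bD
  rw [MonoidAlgebra.coeff_sum, Finsupp.finsetSum_apply, Finset.sum_eq_single τ]
  · rw [MonoidAlgebra.coeff_single, Finsupp.single_eq_same]
  · intro b _ hb
    rw [MonoidAlgebra.coeff_single, Finsupp.single_eq_of_ne (Ne.symm hb)]
  · intro h; exact absurd (Finset.mem_univ _) h

/-- coefficients under multiplication by an element of the group -/
theorem DVE_mul_coeff {G : Type} [Group G] (y : MonoidAlgebra ℤ G) (g τ : G) :
    (MonoidAlgebra.single g 1 * y).coeff τ = y.coeff (g⁻¹ * τ) := by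
  rw [MonoidAlgebra.coeff_single_mul_apply, one_mul]

/-- invariance of the coefficients of an element of `Elat` -/
theorem DVE_inv {G : Type} [Group G] {B : Subgroup G} {c : G} {y : MonoidAlgebra ℤ G} (hy : y ∈ Elat B c)
    {b : G} (hb : b ∈ B) (τ : G) : y.coeff (b * τ) = y.coeff τ := by
  have h1 := hy.1 b⁻¹ (B.inv_mem hb)
  have h2 := DVE_mul_coeff y b⁻¹ τ
  rw [h1, inv_inv] at h2
  exact h2.symm

theorem DVE_neg {G : Type} [Group G] {B : Subgroup G} {c : G} (hc : c * c = 1) {y : MonoidAlgebra ℤ G} (hy : y ∈ Elat B c)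
    (τ : G) : y.coeff (c * τ) = - y.coeff τ := by
  have h1 := hy.2
  have h2 := DVE_mul_coeff y c τ
  have h3 : c⁻¹ = c := inv_eq_of_mul_eq_one_left hc
  rw [h1, h3] at h2
  rw [← h2, MonoidAlgebra.coeff_neg, Finsupp.neg_apply]

end DVEsec

/-- the primes of `K` above `v_j`, for one prime `w` of `H` -/
theorem DVE_key (hORD : ORD_stmt) (hVLU : VLU_stmt) (hSPL : SPL_stmt)
    (F K H : Type) [Field F] [NumberField F] [Field K] [NumberField K] [Field H] [NumberField H]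
    [Algebra F K] [Algebra K H] [Algebra F H] [IsScalarTower F K H] [IsAbelianGalois F K] [IsAbelianGalois F H]
    (w : HOS H) (hw : {P : HOS H | P.under (𝓞 F) = w.under (𝓞 F)}.ncard = finrank F H) :
    (∀ ρ ρ' : K ≃ₐ[F] K, DVE_A ρ (w.under (𝓞 K)) = DVE_A ρ' (w.under (𝓞 K)) → ρ = ρ') ∧
    (∀ P : HOS K, P.under (𝓞 F) = w.under (𝓞 F) ↔ ∃ τ : H ≃ₐ[F] H, DVE_A (AlgEquiv.restrictNormalHom K τ : K ≃ₐ[F] K) (w.under (𝓞 K)) = P) := by
  obtain ⟨h1, h2, -⟩ := (hSPL F H w hw).2.2 K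
  constructor
  · intro ρ ρ' h
    have h3 : DVE_A (ρ'⁻¹ * ρ) (w.under (𝓞 K)) = w.under (𝓞 K) := by
      rw [DVE_A_mul hORD, h, ← DVE_A_mul hORD, inv_mul_cancel, DVE_A_one hORD]
    exact (inv_mul_eq_one.mp (h1 _ h3)).symm
  · intro P
    constructor
    · intro hP
      obtain ⟨ρ, hρ⟩ := h2 P hP
      obtain ⟨τ, rfl⟩ := AlgEquiv.restrictNormalHom_surjective (F := F) (K₁ := K) H ρ
      exact ⟨τ, hρ⟩
    · rintro ⟨τ, rfl⟩
      rw [DVE_A_under hORD]
      exact (hVLU K H).2.2.2 F w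

theorem DVE (hORD : ORD_stmt) (hVLU : VLU_stmt) (hSPL : SPL_stmt) : DVE_stmt := by
  intro F K H _ _ _ _ _ _ _ _ _ _ _ _ r w hw hinj c hc
  have key := fun j => DVE_key hORD hVLU hSPL F K H (w j) (hw j)
  refine ⟨?_, ?_, ?_⟩
  · intro D hD j
    refine ⟨?_, ?_⟩
    · intro b hb
      ext τ
      rw [DVE_mul_coeff, DVE_coeff, DVE_coeff]
      have h1 : (AlgEquiv.restrictNormalHom K (b⁻¹ * τ) : K ≃ₐ[F] K) = AlgEquiv.restrictNormalHom K τ := by
        rw [map_mul, map_inv, MonoidHom.mem_ker.mp hb, inv_one, one_mul]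
      rw [h1]
    · ext τ
      rw [DVE_mul_coeff, DVE_coeff, MonoidAlgebra.coeff_neg, Finsupp.neg_apply, DVE_coeff, inv_eq_of_mul_eq_one_left hc, map_mul]
      have h1 := hD.2 (DVE_A (AlgEquiv.restrictNormalHom K τ : K ≃ₐ[F] K) ((w j).under (𝓞 K)))
      have h2 := DVE_A_mul hORD (AlgEquiv.restrictNormalHom K c : K ≃ₐ[F] K) (AlgEquiv.restrictNormalHom K τ : K ≃ₐ[F] K) ((w j).under (𝓞 K))
      unfold DVE_A at h1 h2
      rw [h2, h1]
  · intro y hy
    -- the function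
    let f : HOS K → ℤ := fun P => if h : ∃ p : Fin r × (H ≃ₐ[F] H),
      DVE_A (AlgEquiv.restrictNormalHom K p.2 : K ≃ₐ[F] K) ((w p.1).under (𝓞 K)) = P then (y h.choose.1).coeff h.choose.2 else 0
    have hf : ∀ j τ, f (DVE_A (AlgEquiv.restrictNormalHom K τ : K ≃ₐ[F] K) ((w j).under (𝓞 K))) = (y j).coeff τ := by
      intro j τ
      have h : ∃ p : Fin r × (H ≃ₐ[F] H),
        DVE_A (AlgEquiv.restrictNormalHom K p.2 : K ≃ₐ[F] K) ((w p.1).under (𝓞 K)) =
          DVE_A (AlgEquiv.restrictNormalHom K τ : K ≃ₐ[F] K) ((w j).under (𝓞 K)) := ⟨(j, τ), rfl⟩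
      have h0 : f (DVE_A (AlgEquiv.restrictNormalHom K τ : K ≃ₐ[F] K) ((w j).under (𝓞 K))) = (y h.choose.1).coeff h.choose.2 := dif_pos h
      rw [h0]
      have h1 := h.choose_spec
      have h2 : h.choose.1 = j := by
        apply hinj
        have h3 := congrArg (fun P : HOS K => P.under (𝓞 F)) h1
        simp only [DVE_A_under hORD] at h3
        rw [(hVLU K H).2.2.2 F, (hVLU K H).2.2.2 F] at h3
        exact h3
      rw [h2] at h1
      have h4 := (key j).1 _ _ h1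
      have h5 : h.choose.2 * τ⁻¹ ∈ (AlgEquiv.restrictNormalHom K : (H ≃ₐ[F] H) →* (K ≃ₐ[F] K)).ker := by
        rw [MonoidHom.mem_ker, map_mul, map_inv, h4, mul_inv_cancel]
      have h6 := DVE_inv (hy j) h5 τ
      rw [inv_mul_cancel_right] at h6
      rw [h2, h6]
    have hf0 : ∀ P : HOS K, (¬ ∃ j, P.under (𝓞 F) = (w j).under (𝓞 F)) → f P = 0 := by
      intro P hP
      apply dif_neg
      rintro ⟨⟨j, τ⟩, h⟩
      exact hP ⟨j, ((key j).2 P).mpr ⟨τ, h⟩⟩
    have hfin : (Function.support f).Finite := by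
      apply Set.Finite.subset (Set.finite_range (fun p : Fin r × (H ≃ₐ[F] H) =>
        DVE_A (AlgEquiv.restrictNormalHom K p.2 : K ≃ₐ[F] K) ((w p.1).under (𝓞 K))))
      intro P hP
      by_contra h
      apply hP
      apply dif_neg
      rintro ⟨p, hp⟩
      exact h ⟨p, hp⟩
    refine ⟨Finsupp.ofSupportFinite f hfin, ⟨?_, ?_⟩, ?_⟩
    · intro P hP
      exact hf0 P hP
    · intro P
      by_cases hP : ∃ j, P.under (𝓞 F) = (w j).under (𝓞 F)
      · obtain ⟨j, hj⟩ := hP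
        obtain ⟨τ, rfl⟩ := ((key j).2 P).mp hj
        have h1 := hf j τ
        have h2 := hf j (c * τ)
        rw [map_mul, DVE_A_mul hORD, DVE_neg hc (hy j)] at h2
        rw [Finsupp.ofSupportFinite_coe, h1]
        exact h2
      · have h1 := hf0 P hP
        have h2 := hf0 (DVE_A (AlgEquiv.restrictNormalHom K c : K ≃ₐ[F] K) P) (by rw [DVE_A_under hORD]; exact hP)
        rw [Finsupp.ofSupportFinite_coe, h1, neg_zero]
        exact h2
    · intro j
      ext τ
      rw [DVE_coeff]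
      exact hf j τ
  · intro D hD h0
    ext P
    by_cases hP : ∃ j, P.under (𝓞 F) = (w j).under (𝓞 F)
    · obtain ⟨j, hj⟩ := hP
      obtain ⟨τ, rfl⟩ := ((key j).2 P).mp hj
      have h1 := DVE_coeff (F := F) (w j) D τ
      rw [h0 j] at h1
      exact h1.symm
    · exact hD.1 P hP

end Pool.Agent.RB
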